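import Mathlib
import Pool.Agent.Helper8.Transfer.Defs
import Pool.Agent.Helper8.Order.ExpSum

/-!
# Mean square over the frequency of weighted exponential sums

Module T1 of the correlation transfer for MP_e6fa8b_nt.
-/

namespace Pool.Agent.Helper8.Transfer

open Polynomial Finset Filter Topology Pool.Agent.Helper8.Dilation Pool.Agent.Helper8.Order

/-- separation of the phases -/
lemma phase_sep (d : ℕ) (p : ℤ[X]) (hp : ¬ ((X - 1) ^ (d + 1) ∣ p)) :
    ∃ c : ℝ, 0 < c ∧ ∃ n0 : ℕ, ∀ m n x : ℕ, n0 ≤ m → m ≤ n → n ≤ x →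
      c * ((n : ℝ) - m) / (x : ℝ) ^ (d + 1) ≤ |L p n - L p m| := by
  have hp0 : p ≠ 0 := by rintro rfl; exact hp (dvd_zero _)
  obtain ⟨q, hq1, hq2⟩ := Polynomial.exists_eq_pow_rootMultiplicity_mul_and_not_dvd p hp0 1
  set r := p.rootMultiplicity 1 with hr
  have hX : (X - C 1 : ℤ[X]) = X - 1 := by simp
  rw [hX] at hq1 hq2
  have hrd : r ≤ d := by
    by_contra hcon
    push Not at hcon
    apply hp
    rw [hq1]
    exact (pow_dvd_pow _ hcon).trans (dvd_mul_right _ _)
  have hq : q.eval 1 ≠ 0 := by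
    intro h0
    apply hq2
    rw [← hX, Polynomial.dvd_iff_isRoot]
    exact h0
  have e1 : (X - 1) * p = (X - 1) ^ (r + 1) * q := by rw [hq1]; ring
  obtain ⟨hm0, hmr⟩ := mom_pow (r + 1) q
  rw [← e1] at hm0 hmr
  obtain ⟨S, hS, n1, hn1, hmain⟩ := L_main (r + 1) (by omega) ((X - 1) * p) hm0
  set M : ℝ := mom ((X - 1) * p) (r + 1) with hM
  have hM0 : M ≠ 0 := by
    rw [hmr]
    have : ((q.eval 1 : ℤ) : ℝ) ≠ 0 := by exact_mod_cast hq
    positivity
  have hstep : ∀ n : ℕ, L p ((n + 1 : ℕ) : ℝ) - L p n = L ((X - 1) * p) n := by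
    intro n
    rw [sub_mul, one_mul, L_sub]
    have := L_X_pow_mul p 1 n
    rw [pow_one] at this
    rw [this]
    push_cast; ring
  -- the sign and the lower bound
  set c : ℝ := |M| / (2 * ((r + 1 : ℕ) : ℝ)) with hc
  have hr1 : (0 : ℝ) < ((r + 1 : ℕ) : ℝ) := by positivity
  have hcpos : 0 < c := by positivity
  set s : ℝ := ((SignType.sign ((-1) ^ r * M) : SignType) : ℝ) with hs
  have hsM : s * ((-1) ^ r * M) = |M| := by
    rw [hs, sign_mul_self, abs_mul, abs_pow, abs_neg, abs_one, one_pow, one_mul]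
  have hs1 : |s| = 1 := by
    have h1 : |s * ((-1) ^ r * M)| = |M| := by rw [hsM, abs_abs]
    rw [abs_mul, abs_mul, abs_pow, abs_neg, abs_one, one_pow, one_mul] at h1
    have h2 : |M| ≠ 0 := abs_ne_zero.mpr hM0
    field_simp at h1
    exact h1
  have hlow : ∀ n : ℕ, max n1 (⌈S / c⌉₊ + 1) ≤ n → c / (n : ℝ) ^ (r + 1) ≤ s * L ((X - 1) * p) n := by
    intro n hn
    have ha : n1 ≤ n := (le_max_left _ _).trans hn
    have hb : ⌈S / c⌉₊ + 1 ≤ n := (le_max_right _ _).trans hn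
    have hnpos : (0 : ℝ) < n := by
      have : 0 < n := by omega
      exact_mod_cast this
    have hn3 : S / c ≤ n := by
      have h1 := Nat.le_ceil (S / c)
      have h2 : ((⌈S / c⌉₊ : ℕ) : ℝ) ≤ n := by exact_mod_cast (by omega : ⌈S / c⌉₊ ≤ n)
      linarith
    have hn4 : S ≤ c * n := by
      rw [div_le_iff₀ hcpos] at hn3; linarith
    have h1 := hmain n ha
    rw [Nat.add_sub_cancel] at h1
    have h2 : |s * (L ((X - 1) * p) n - (-1) ^ r * M / (((r + 1 : ℕ) : ℝ) * (n : ℝ) ^ (r + 1)))|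
        ≤ S / (n : ℝ) ^ (r + 1 + 1) := by
      rw [abs_mul, hs1, one_mul]; exact h1
    have h3 := (abs_le.mp h2).1
    have h4 : s * ((-1) ^ r * M / (((r + 1 : ℕ) : ℝ) * (n : ℝ) ^ (r + 1)))
        = 2 * c / (n : ℝ) ^ (r + 1) := by
      rw [← mul_div_assoc, hsM, hc]; field_simp
    have h5 : S / (n : ℝ) ^ (r + 1 + 1) ≤ c / (n : ℝ) ^ (r + 1) := by
      rw [pow_succ (n : ℝ) (r + 1), ← div_div, div_le_iff₀ hnpos, div_mul_eq_mul_div]
      exact div_le_div_of_nonneg_right hn4 (by positivity)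
    have h6 : 2 * c / (n : ℝ) ^ (r + 1) = c / (n : ℝ) ^ (r + 1) + c / (n : ℝ) ^ (r + 1) := by ring
    rw [mul_sub, h4, h6] at h3
    linarith
  refine ⟨c, hcpos, max n1 (⌈S / c⌉₊ + 1), ?_⟩
  intro m n x hm hmn hnx
  have hmpos : 0 < m := by
    have := (le_max_right n1 (⌈S / c⌉₊ + 1)).trans hm
    omega
  have hx1 : (1 : ℝ) ≤ x := by exact_mod_cast (by omega : 1 ≤ x)
  obtain ⟨k, rfl⟩ := Nat.exists_eq_add_of_le hmn
  have key : ∀ k, m + k ≤ x → c * k / (x : ℝ) ^ (d + 1) ≤ s * (L p ((m + k : ℕ) : ℝ) - L p m) := by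
    intro k
    induction k with
    | zero => intro _; simp
    | succ k ih =>
      intro hk
      have ih' := ih (by omega)
      have h1 := hlow (m + k) (hm.trans (by omega))
      have h2 : s * (L p ((m + (k + 1) : ℕ) : ℝ) - L p m)
          = s * (L p ((m + k : ℕ) : ℝ) - L p m) + s * L ((X - 1) * p) ((m + k : ℕ) : ℝ) := by
        rw [← hstep (m + k)]
        rw [show m + (k + 1) = m + k + 1 by ring]
        ring
      rw [h2]
      have h3 : c / (x : ℝ) ^ (d + 1) ≤ c / ((m + k : ℕ) : ℝ) ^ (r + 1) := by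
        have hmk : (0 : ℝ) < ((m + k : ℕ) : ℝ) := by exact_mod_cast (by omega : 0 < m + k)
        apply div_le_div_of_nonneg_left hcpos.le (by positivity)
        calc ((m + k : ℕ) : ℝ) ^ (r + 1) ≤ (x : ℝ) ^ (r + 1) := by
              apply pow_le_pow_left₀ hmk.le
              exact_mod_cast (by omega : m + k ≤ x)
          _ ≤ (x : ℝ) ^ (d + 1) := pow_le_pow_right₀ hx1 (by omega)
      push_cast at h1 h3 ih' ⊢
      have h4 : c * ((k : ℝ) + 1) / (x : ℝ) ^ (d + 1) = c * k / (x : ℝ) ^ (d + 1) + c / (x : ℝ) ^ (d + 1) := by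
        ring
      rw [h4]
      linarith
  have h1 := key k hnx
  have h2 : s * (L p ((m + k : ℕ) : ℝ) - L p m) ≤ |L p ((m + k : ℕ) : ℝ) - L p m| := by
    refine (le_abs_self _).trans ?_
    rw [abs_mul, hs1, one_mul]
  have h3 : ((m + k : ℕ) : ℝ) - m = k := by push_cast; ring
  rw [h3]
  exact h1.trans h2

/-- the square of the norm of an exponential sum with real weights -/
lemma norm_sq_sum (s : Finset ℕ) (G : ℕ → ℝ) (t : ℝ) (p : ℤ[X]) :
    ‖∑ n ∈ s, (G n : ℂ) * E t p n‖ ^ 2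
      = ∑ n ∈ s, ∑ m ∈ s, G n * G m * Real.cos (Real.pi * (L p n - L p m) * t) := by
  have h1 : ((‖∑ n ∈ s, (G n : ℂ) * E t p n‖ ^ 2 : ℝ) : ℂ)
      = ∑ n ∈ s, ∑ m ∈ s, ((G n : ℂ) * E t p n) * (starRingEnd ℂ) ((G m : ℂ) * E t p m) := by
    push_cast
    rw [← Complex.mul_conj', map_sum, Finset.sum_mul_sum]
  have h2 : ‖∑ n ∈ s, (G n : ℂ) * E t p n‖ ^ 2
      = (∑ n ∈ s, ∑ m ∈ s, ((G n : ℂ) * E t p n) * (starRingEnd ℂ) ((G m : ℂ) * E t p m)).re := by
    rw [← h1, Complex.ofReal_re]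
  rw [h2, Complex.re_sum]
  refine Finset.sum_congr rfl fun n _ => ?_
  rw [Complex.re_sum]
  refine Finset.sum_congr rfl fun m _ => ?_
  have h3 : ((G n : ℂ) * E t p n) * (starRingEnd ℂ) ((G m : ℂ) * E t p m)
      = ((G n * G m : ℝ) : ℂ) * Complex.exp ((Real.pi * (L p n - L p m) * t : ℝ) * Complex.I) := by
    unfold E
    rw [map_mul, Complex.conj_ofReal, ← Complex.exp_conj, map_mul, Complex.conj_I,
      Complex.conj_ofReal]
    have h4 : ∀ a b c e : ℂ, a * b * (c * e) = a * c * (b * e) := fun a b c e => by ring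
    rw [h4, ← Complex.exp_add]
    push_cast
    congr 2
    ring
  rw [h3, Complex.re_ofReal_mul, Complex.exp_ofReal_mul_I_re]

lemma int_cos_diag (X : ℝ) : ∫ t in X..(2 * X), Real.cos (0 * t) = X := by
  simp; ring

lemma int_cos_le (w : ℝ) (hw : w ≠ 0) (X : ℝ) :
    |∫ t in X..(2 * X), Real.cos (w * t)| ≤ 2 / |w| := by
  rw [intervalIntegral.integral_comp_mul_left (fun t => Real.cos t) hw, integral_cos, smul_eq_mul,
    abs_mul, abs_inv, inv_mul_eq_div]
  apply div_le_div_of_nonneg_right _ (abs_nonneg _)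
  have h1 := Real.abs_sin_le_one (w * (2 * X))
  have h2 := Real.abs_sin_le_one (w * X)
  have h3 := abs_sub (Real.sin (w * (2 * X))) (Real.sin (w * X))
  linarith

lemma sum_inv_le (x k : ℕ) (hk : k ≤ x) :
    ∑ i ∈ range k, 1 / ((i : ℝ) + 1) ≤ 1 + Real.log x := by
  have h1 := harmonic_le_one_add_log x
  have h2 : ((harmonic x : ℚ) : ℝ) = ∑ i ∈ range x, 1 / ((i : ℝ) + 1) := by
    rw [harmonic]; push_cast
    exact Finset.sum_congr rfl fun i _ => by rw [one_div]
  rw [h2] at h1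
  refine le_trans ?_ h1
  apply Finset.sum_le_sum_of_subset_of_nonneg
  · exact Finset.range_subset_range.mpr hk
  · intro i _ _; positivity

lemma sum_inv_abs (n0 x n : ℕ) (hn : n ∈ Ioc n0 x) :
    ∑ m ∈ (Ioc n0 x).erase n, 1 / |(n : ℝ) - m| ≤ 2 * (1 + Real.log x) := by
  have hsplit : (Ioc n0 x).erase n ⊆ (Ico (n0 + 1) n) ∪ Ioc n x := by
    intro m hm
    simp only [Finset.mem_erase, Finset.mem_Ioc, Finset.mem_union, Finset.mem_Ico] at hm ⊢
    omega
  rw [Finset.mem_Ioc] at hn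
  have h1 : ∑ m ∈ Ico (n0 + 1) n, 1 / |(n : ℝ) - m| ≤ 1 + Real.log x := by
    refine le_trans (le_of_eq ?_) (sum_inv_le x (n - (n0 + 1)) (by omega))
    apply Finset.sum_bij' (fun m _ => n - 1 - m) (fun i _ => n - 1 - i)
    · intro m hm; rw [Finset.mem_Ico] at hm; rw [Finset.mem_range]; omega
    · intro i hi; rw [Finset.mem_range] at hi; rw [Finset.mem_Ico]; omega
    · intro m hm; rw [Finset.mem_Ico] at hm; omega
    · intro i hi; rw [Finset.mem_range] at hi; omega
    · intro m hm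
      rw [Finset.mem_Ico] at hm
      have e : ((n - 1 - m : ℕ) : ℝ) + 1 = (n : ℝ) - m := by
        have : ((n - 1 - m : ℕ) : ℝ) = ((n : ℝ) - 1) - m := by
          rw [Nat.cast_sub (by omega), Nat.cast_sub (by omega), Nat.cast_one]
        rw [this]; ring
      rw [e, abs_of_nonneg]
      have : (m : ℝ) ≤ n := by exact_mod_cast (by omega : m ≤ n)
      linarith
  have h2 : ∑ m ∈ Ioc n x, 1 / |(n : ℝ) - m| ≤ 1 + Real.log x := by
    refine le_trans (le_of_eq ?_) (sum_inv_le x (x - n) (by omega))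
    apply Finset.sum_bij' (fun m _ => m - 1 - n) (fun i _ => n + 1 + i)
    · intro m hm; rw [Finset.mem_Ioc] at hm; rw [Finset.mem_range]; omega
    · intro i hi; rw [Finset.mem_range] at hi; rw [Finset.mem_Ioc]; omega
    · intro m hm; rw [Finset.mem_Ioc] at hm; omega
    · intro i hi; rw [Finset.mem_range] at hi; omega
    · intro m hm
      rw [Finset.mem_Ioc] at hm
      have e : ((m - 1 - n : ℕ) : ℝ) + 1 = (m : ℝ) - n := by
        have : ((m - 1 - n : ℕ) : ℝ) = ((m : ℝ) - 1) - n := by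
          rw [Nat.cast_sub (by omega), Nat.cast_sub (by omega), Nat.cast_one]
        rw [this]; ring
      rw [e, abs_sub_comm, abs_of_nonneg]
      have : (n : ℝ) ≤ m := by exact_mod_cast (by omega : n ≤ m)
      linarith
  have h3 : Disjoint (Ico (n0 + 1) n) (Ioc n x) := by
    rw [Finset.disjoint_left]
    intro m hm hm'
    rw [Finset.mem_Ico] at hm
    rw [Finset.mem_Ioc] at hm'
    omega
  calc ∑ m ∈ (Ioc n0 x).erase n, 1 / |(n : ℝ) - m|
      ≤ ∑ m ∈ (Ico (n0 + 1) n) ∪ Ioc n x, 1 / |(n : ℝ) - m| :=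
        Finset.sum_le_sum_of_subset_of_nonneg hsplit fun i _ _ => by positivity
    _ = ∑ m ∈ Ico (n0 + 1) n, 1 / |(n : ℝ) - m| + ∑ m ∈ Ioc n x, 1 / |(n : ℝ) - m| :=
        Finset.sum_union h3
    _ ≤ _ := by linarith

/-- T1: mean square over the frequency of weighted exponential sums -/
theorem ms (d : ℕ) (p : ℤ[X]) (hp : ¬ ((X - 1) ^ (d + 1) ∣ p)) :
    ∃ C : ℝ, 0 < C ∧ ∃ n0 : ℕ, ∀ (G : ℕ → ℝ) (W : ℝ), 0 ≤ W → ∀ x : ℕ,
      (∀ n, n ≤ x → |G n| ^ 2 ≤ W) → ∀ X : ℝ, 1 ≤ X →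
      ∫ t in X..(2 * X), ‖∑ n ∈ Ioc n0 x, (G n : ℂ) * E t p n‖ ^ 2
        ≤ W * (X * x + C * (x : ℝ) ^ (d + 2) * (1 + Real.log x)) := by
  obtain ⟨c, hc, n0, hsep⟩ := phase_sep d p hp
  refine ⟨4 / (Real.pi * c), by positivity, n0, ?_⟩
  intro G W hW x hG X hX
  have hpi := Real.pi_pos
  have hint : ∀ n m : ℕ, IntervalIntegrable
      (fun t => G n * G m * Real.cos (Real.pi * (L p n - L p m) * t)) MeasureTheory.volume X (2 * X) := by
    intro n m
    apply Continuous.intervalIntegrable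
    fun_prop
  simp_rw [norm_sq_sum]
  rw [intervalIntegral.integral_finsetSum (fun n _ => by
    apply Continuous.intervalIntegrable; fun_prop)]
  have hGG : ∀ n m, n ≤ x → m ≤ x → |G n * G m| ≤ W := by
    intro n m hn hm
    rw [abs_mul]
    have h1 := hG n hn
    have h2 := hG m hm
    nlinarith [sq_nonneg (|G n| - |G m|)]
  have hrow : ∀ n ∈ Ioc n0 x,
      ∫ t in X..(2 * X), ∑ m ∈ Ioc n0 x, G n * G m * Real.cos (Real.pi * (L p n - L p m) * t)
        ≤ W * (X + 4 / (Real.pi * c) * (x : ℝ) ^ (d + 1) * (1 + Real.log x)) := by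
    intro n hn
    rw [intervalIntegral.integral_finsetSum (fun m _ => hint n m), ← Finset.add_sum_erase _ _ hn]
    have hn' := Finset.mem_Ioc.mp hn
    have h1 : ∫ t in X..(2 * X), G n * G n * Real.cos (Real.pi * (L p n - L p n) * t) ≤ W * X := by
      rw [intervalIntegral.integral_const_mul, sub_self, mul_zero, int_cos_diag]
      apply mul_le_mul_of_nonneg_right _ (by linarith)
      exact (le_abs_self _).trans (hGG n n hn'.2 hn'.2)
    have h2 : ∀ m ∈ (Ioc n0 x).erase n,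
        ∫ t in X..(2 * X), G n * G m * Real.cos (Real.pi * (L p n - L p m) * t)
          ≤ W * (2 / (Real.pi * c) * (x : ℝ) ^ (d + 1) * (1 / |(n : ℝ) - m|)) := by
      intro m hm
      rw [Finset.mem_erase, Finset.mem_Ioc] at hm
      have hx : (0 : ℝ) < x := by exact_mod_cast (by omega : 0 < x)
      have hnm : 0 < |(n : ℝ) - m| := by
        rw [abs_pos, sub_ne_zero]
        exact_mod_cast (Ne.symm hm.1)
      have h3 : c * |(n : ℝ) - m| / (x : ℝ) ^ (d + 1) ≤ |L p n - L p m| := by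
        rcases le_total m n with h | h
        · have := hsep m n x (by omega) h hn'.2
          rwa [abs_of_nonneg (show (0 : ℝ) ≤ (n : ℝ) - m by
            have : (m : ℝ) ≤ n := by exact_mod_cast h
            linarith)]
        · have := hsep n m x (by omega) h hm.2.2
          rwa [abs_sub_comm (n : ℝ), abs_sub_comm (L p n), abs_of_nonneg (show (0 : ℝ) ≤ (m : ℝ) - n by
            have : (n : ℝ) ≤ m := by exact_mod_cast h
            linarith)]
      have h4 : 0 < |L p n - L p m| := lt_of_lt_of_le (by positivity) h3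
      have h5 : Real.pi * (L p n - L p m) ≠ 0 := mul_ne_zero hpi.ne' (abs_pos.mp h4)
      rw [intervalIntegral.integral_const_mul]
      refine (le_abs_self _).trans ?_
      rw [abs_mul]
      apply mul_le_mul (hGG n m hn'.2 hm.2.2) _ (abs_nonneg _) hW
      refine (int_cos_le _ h5 X).trans ?_
      rw [abs_mul, abs_of_pos hpi]
      calc 2 / (Real.pi * |L p n - L p m|)
          ≤ 2 / (Real.pi * (c * |(n : ℝ) - m| / (x : ℝ) ^ (d + 1))) := by
            apply div_le_div_of_nonneg_left (by norm_num) (by positivity)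
            exact mul_le_mul_of_nonneg_left h3 hpi.le
        _ = _ := by field_simp
    have h6 := Finset.sum_le_sum h2
    rw [← Finset.mul_sum, ← Finset.mul_sum] at h6
    have h7 := sum_inv_abs n0 x n hn
    have h8 : W * (2 / (Real.pi * c) * (x : ℝ) ^ (d + 1) *
        ∑ m ∈ (Ioc n0 x).erase n, 1 / |(n : ℝ) - m|)
        ≤ W * (2 / (Real.pi * c) * (x : ℝ) ^ (d + 1) * (2 * (1 + Real.log x))) := by
      apply mul_le_mul_of_nonneg_left _ hW
      exact mul_le_mul_of_nonneg_left h7 (by positivity)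
    have h9 : W * (X + 4 / (Real.pi * c) * (x : ℝ) ^ (d + 1) * (1 + Real.log x))
        = W * X + W * (2 / (Real.pi * c) * (x : ℝ) ^ (d + 1) * (2 * (1 + Real.log x))) := by ring
    rw [h9]
    exact add_le_add h1 (h6.trans h8)
  refine (Finset.sum_le_sum hrow).trans ?_
  rw [Finset.sum_const, nsmul_eq_mul, Nat.card_Ioc]
  rcases Nat.eq_zero_or_pos x with h0 | h0
  · subst h0; simp
  have hlog : 0 ≤ Real.log x := Real.log_natCast_nonneg x
  have hcard : ((x - n0 : ℕ) : ℝ) ≤ x := by exact_mod_cast Nat.sub_le x n0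
  calc ((x - n0 : ℕ) : ℝ) * (W * (X + 4 / (Real.pi * c) * (x : ℝ) ^ (d + 1) * (1 + Real.log x)))
      ≤ x * (W * (X + 4 / (Real.pi * c) * (x : ℝ) ^ (d + 1) * (1 + Real.log x))) := by
        apply mul_le_mul_of_nonneg_right hcard
        apply mul_nonneg hW
        positivity
    _ = _ := by ring

end Pool.Agent.Helper8.Transfer
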